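import Mathlib

/-!
# The maximal number of bounded components of the curve where `R'` is real

For a pole divisor `D` with `s ≥ 1` distinct finite poles, the maximal number of bounded
components is `s` when `∞` is a pole, and `s - 1` when it is not.
-/

open Polynomial Topology Filter Set

namespace Pool.Agent.Results.MP_bd2914_ag.MaxBounded

/-- The rational function `f / g`, as a function of a complex variable. -/
noncomputable def ratFun (f g : ℂ[X]) (z : ℂ) : ℂ := f.eval z / g.eval z

/-- For `R = f / g` in lowest terms, the set of all finite `z` with `R'(z)` real or infinite. -/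
def realLocus (f g : ℂ[X]) : Set ℂ := {z | g.eval z = 0 ∨ (deriv (ratFun f g) z).im = 0}

/-- The bounded connected components of `realLocus f g`. -/
def boundedComponents (f g : ℂ[X]) : Set (Set ℂ) :=
  {K | ∃ z ∈ realLocus f g, K = connectedComponentIn (realLocus f g) z ∧ Bornology.IsBounded K}

/-- The rational function `R = f / g` is in lowest terms and has pole divisor
`∑ D(p) [p] + m [∞]`. -/
structure HasPoleDivisor (f g : ℂ[X]) (D : ℂ →₀ ℕ) (m : ℕ) : Prop where
  coprime : IsCoprime f g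
  ne_zero : g ≠ 0
  order : ∀ p, g.rootMultiplicity p = D p
  order_infty : f.natDegree - g.natDegree = m

section Topology

/-- A bounded component of a closed set of the plane has arbitrarily small compact relatively
open neighbourhoods. -/
lemma exists_compact_open {E : Set ℂ} (hE : IsClosed E) {z : ℂ} (hz : z ∈ E)
    (hb : Bornology.IsBounded (connectedComponentIn E z)) {O : Set ℂ} (hO : IsOpen O)
    (hKO : connectedComponentIn E z ⊆ O) :
    ∃ L, connectedComponentIn E z ⊆ L ∧ L ⊆ E ∩ O ∧ IsCompact L ∧ IsClosed (E \ L) := by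
  obtain ⟨r, hr⟩ := hb.subset_ball 0
  set B := Metric.closedBall (0 : ℂ) r with hB
  have hcomp : IsCompact (E ∩ B) := (isCompact_closedBall 0 r).inter_left hE
  have : CompactSpace ↥(E ∩ B) := isCompact_iff_compactSpace.mp hcomp
  have hzK : z ∈ connectedComponentIn E z := mem_connectedComponentIn hz
  have hzB : z ∈ E ∩ B := ⟨hz, Metric.ball_subset_closedBall (hr hzK)⟩
  let x : ↥(E ∩ B) := ⟨z, hzB⟩
  have hsub : Subtype.val '' (connectedComponent x) ⊆ connectedComponentIn E z := by
    apply IsPreconnected.subset_connectedComponentIn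
    · exact isPreconnected_connectedComponent.image _ continuous_subtype_val.continuousOn
    · exact ⟨x, mem_connectedComponent, rfl⟩
    · rintro _ ⟨y, -, rfl⟩
      exact y.2.1
  have hU : ∃ s : {s : Set ↥(E ∩ B) // IsClopen s ∧ x ∈ s},
      (s : Set ↥(E ∩ B)) ⊆ Subtype.val ⁻¹' (O ∩ Metric.ball 0 r) := by
    have : Nonempty {s : Set ↥(E ∩ B) // IsClopen s ∧ x ∈ s} :=
      ⟨⟨univ, isClopen_univ, mem_univ x⟩⟩
    apply exists_subset_nhds_of_compactSpace
    · intro s t
      exact ⟨⟨s ∩ t, s.2.1.inter t.2.1, s.2.2, t.2.2⟩, inter_subset_left, inter_subset_right⟩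
    · intro s
      exact s.2.1.isClosed
    · intro y hy
      rw [← connectedComponent_eq_iInter_isClopen] at hy
      apply IsOpen.mem_nhds ((hO.inter Metric.isOpen_ball).preimage continuous_subtype_val)
      have : (y : ℂ) ∈ connectedComponentIn E z := hsub ⟨y, hy, rfl⟩
      exact ⟨hKO this, hr this⟩
  obtain ⟨⟨s, hs, hxs⟩, hsO⟩ := hU
  have hLc : IsCompact (Subtype.val '' s : Set ℂ) :=
    (hs.isClosed.isCompact).image continuous_subtype_val
  have hLcc : IsCompact (Subtype.val '' sᶜ : Set ℂ) :=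
    (hs.compl.isClosed.isCompact).image continuous_subtype_val
  have hLball : Subtype.val '' s ⊆ O ∩ Metric.ball 0 r := by
    rintro _ ⟨y, hy, rfl⟩
    exact hsO hy
  have hcl : IsClosed (E \ Subtype.val '' s) := by
    have : E \ Subtype.val '' s = (E \ Metric.ball 0 r) ∪ Subtype.val '' sᶜ := by
      ext w
      constructor
      · rintro ⟨hwE, hws⟩
        by_cases hw : w ∈ Metric.ball 0 r
        · right
          refine ⟨⟨w, hwE, Metric.ball_subset_closedBall hw⟩, ?_, rfl⟩
          intro hw'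
          exact hws ⟨_, hw', rfl⟩
        · exact Or.inl ⟨hwE, hw⟩
      · rintro (⟨hwE, hw⟩ | ⟨y, hy, rfl⟩)
        · exact ⟨hwE, fun h => hw (hLball h).2⟩
        · refine ⟨y.2.1, ?_⟩
          rintro ⟨y', hy', h⟩
          exact hy (by rwa [← Subtype.ext h])
    rw [this]
    exact (hE.sdiff Metric.isOpen_ball).union hLcc.isClosed
  refine ⟨Subtype.val '' s, ?_, ?_, hLc, hcl⟩
  · have h1 := isPreconnected_iff_subset_of_disjoint_closed.mp
      (isPreconnected_connectedComponentIn (x := z) (F := E)) _ _ hLc.isClosed hcl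
      (by
        intro w hw
        by_cases h : w ∈ Subtype.val '' s
        · exact Or.inl h
        · exact Or.inr ⟨connectedComponentIn_subset _ _ hw, h⟩)
      (by
        rw [eq_empty_iff_forall_notMem]
        rintro w ⟨-, h2, -, h3⟩
        exact h3 h2)
    rcases h1 with h1 | h1
    · exact h1
    · exact absurd ⟨x, hxs, rfl⟩ (h1 hzK).2
  · rintro w ⟨y, hy, rfl⟩
    exact ⟨y.2.1, (hsO hy).1⟩

end Topology

section Analysis

variable {f g : ℂ[X]}

lemma analyticAt_eval (P : ℂ[X]) (z : ℂ) : AnalyticAt ℂ (fun w => P.eval w) z := by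
  simpa using AnalyticAt.aeval_polynomial (analyticAt_id (𝕜 := ℂ) (z := z)) P

lemma analyticAt_ratFun {z : ℂ} (hz : g.eval z ≠ 0) : AnalyticAt ℂ (ratFun f g) z :=
  (analyticAt_eval f z).div (analyticAt_eval g z) hz

lemma deriv_ratFun {z : ℂ} (hz : g.eval z ≠ 0) :
    deriv (ratFun f g) z =
      (derivative f * g - f * derivative g).eval z / (g.eval z) ^ 2 := by
  have h := (f.hasDerivAt z).div (g.hasDerivAt z) hz
  have : ratFun f g = (fun w => f.eval w) / (fun w => g.eval w) := rfl
  rw [this, h.deriv]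
  simp

lemma realLocus_eq : realLocus f g =
    {z | ((derivative f * g - f * derivative g).eval z *
      (starRingEnd ℂ (g.eval z)) ^ 2).im = 0} := by
  ext z
  simp only [realLocus, Set.mem_ofPred_eq]
  by_cases hz : g.eval z = 0
  · simp [hz]
  · rw [deriv_ratFun hz]
    simp only [hz, false_or]
    set H := (derivative f * g - f * derivative g).eval z
    set a := g.eval z
    have h1 : H / a ^ 2 = ((Complex.normSq (a ^ 2))⁻¹ : ℝ) * (H * (starRingEnd ℂ a) ^ 2) := by
      rw [div_eq_mul_inv, Complex.inv_def, map_pow]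
      push_cast
      ring
    have h2 : (Complex.normSq (a ^ 2))⁻¹ ≠ 0 := by
      rw [ne_eq, inv_eq_zero, Complex.normSq_eq_zero]
      exact pow_ne_zero _ hz
    rw [h1, Complex.im_ofReal_mul, mul_eq_zero, or_iff_right h2]

lemma isClosed_realLocus : IsClosed (realLocus f g) := by
  rw [realLocus_eq]
  apply isClosed_eq
  · fun_prop
  · fun_prop

lemma not_eventually_const (hco : IsCoprime f g) (hg0 : g ≠ 0) (hroot : ∃ p, g.eval p = 0)
    {z : ℂ} (hz : g.eval z ≠ 0) :
    ¬ ∀ᶠ w in 𝓝 z, deriv (ratFun f g) w = deriv (ratFun f g) z := by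
  intro h
  set c := deriv (ratFun f g) z
  have hP : (derivative f * g - f * derivative g) - C c * g ^ 2 = 0 := by
    apply Polynomial.eq_zero_of_infinite_isRoot
    have hcont : ContinuousAt (fun w => g.eval w) z := g.continuous.continuousAt
    have h1 : ∀ᶠ w in 𝓝 z, g.eval w ≠ 0 := hcont.eventually_ne hz
    refine (infinite_of_mem_nhds z (h.and h1)).mono ?_
    rintro w ⟨hw1, hw2⟩
    rw [deriv_ratFun hw2, div_eq_iff (pow_ne_zero _ hw2)] at hw1
    simp only [Set.mem_ofPred_eq, IsRoot.def, eval_sub, eval_mul, eval_C, eval_pow] at hw1 ⊢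
    rw [hw1, sub_self]
  have h1 : g ∣ f * derivative g :=
    ⟨derivative f - C c * g, by linear_combination -hP⟩
  have h2 : g ∣ derivative g := hco.symm.dvd_of_dvd_mul_left h1
  have h3 : derivative g = 0 := by
    by_contra h0
    have h4 := natDegree_le_of_dvd h2 h0
    have h5 : g.natDegree ≠ 0 := by
      intro h6
      apply h0
      rw [eq_C_of_natDegree_eq_zero h6, derivative_C]
    have := natDegree_derivative_lt h5
    omega
  have h4 := Polynomial.derivative_eq_zero.mp h3
  obtain ⟨p, hp⟩ := hroot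
  rw [eq_C_of_natDegree_eq_zero h4, eval_C] at hp
  apply hg0
  rw [eq_C_of_natDegree_eq_zero h4, hp, C_0]

lemma nhds_le_map (hco : IsCoprime f g) (hg0 : g ≠ 0) (hroot : ∃ p, g.eval p = 0)
    {z : ℂ} (hz : g.eval z ≠ 0) :
    𝓝 (deriv (ratFun f g) z) ≤ map (deriv (ratFun f g)) (𝓝 z) := by
  rcases (analyticAt_ratFun hz).deriv.eventually_constant_or_nhds_le_map_nhds with h | h
  · exact absurd h (not_eventually_const hco hg0 hroot hz)
  · exact h

lemma real_nhds {φ : ℂ → ℂ} {z : ℂ} (h : 𝓝 (φ z) ≤ map φ (𝓝 z)) {x : ℝ} (hx : φ z = x)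
    {N : Set ℂ} (hN : N ∈ 𝓝 z) : ∀ᶠ y : ℝ in 𝓝 x, ∃ w ∈ N, φ w = (y : ℂ) := by
  have h1 : φ '' N ∈ 𝓝 (x : ℂ) := by
    rw [← hx]
    exact h (image_mem_map hN)
  exact Complex.continuous_ofReal.continuousAt h1

/-- Every bounded component contains a pole. -/
lemma exists_pole (hco : IsCoprime f g) (hg0 : g ≠ 0) (hroot : ∃ p, g.eval p = 0)
    {z : ℂ} (hz : z ∈ realLocus f g)
    (hb : Bornology.IsBounded (connectedComponentIn (realLocus f g) z)) :
    ∃ p ∈ connectedComponentIn (realLocus f g) z, g.eval p = 0 := by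
  by_contra! hno
  have hO : IsOpen {w : ℂ | g.eval w ≠ 0} := isOpen_ne_fun g.continuous continuous_const
  obtain ⟨L, hKL, hLE, hLc, hcl⟩ := exists_compact_open isClosed_realLocus hz hb hO
    (fun w hw => hno w hw)
  set φ := deriv (ratFun f g) with hφ
  let T : Set ℝ := {x | ∃ w ∈ L, φ w = x}
  have hTopen : IsOpen T := by
    rw [isOpen_iff_mem_nhds]
    rintro x ⟨w, hw, hx⟩
    have hwg : g.eval w ≠ 0 := (hLE hw).2
    have hN : (realLocus f g \ L)ᶜ ∩ {w : ℂ | g.eval w ≠ 0} ∈ 𝓝 w :=
      ((hcl.isOpen_compl).inter hO).mem_nhds ⟨fun h => h.2 hw, hwg⟩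
    filter_upwards [real_nhds (nhds_le_map hco hg0 hroot hwg) hx hN]
    rintro y ⟨v, ⟨hv1, hv2⟩, hv3⟩
    refine ⟨v, ?_, hv3⟩
    by_contra hvL
    apply hv1
    refine ⟨Or.inr ?_, hvL⟩
    have hv4 : deriv (ratFun f g) v = (y : ℂ) := hv3
    rw [hv4, Complex.ofReal_im]
  have hTc : IsCompact T := by
    have : T = (fun w => (φ w).re) '' L := by
      ext x
      constructor
      · rintro ⟨w, hw, hx⟩
        exact ⟨w, hw, by simp [hx]⟩
      · rintro ⟨w, hw, rfl⟩
        refine ⟨w, hw, ?_⟩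
        rcases (hLE hw).1 with h | h
        · exact absurd h (hLE hw).2
        · apply Complex.ext
          · simp
          · simp [hφ, h]
    rw [this]
    apply hLc.image_of_continuousOn
    intro w hw
    have h1 : ContinuousAt φ w := (analyticAt_ratFun (hLE hw).2).deriv.continuousAt
    exact (Complex.continuous_re.continuousAt.comp h1).continuousWithinAt
  have hTn : T.Nonempty := by
    have hzL := hKL (mem_connectedComponentIn hz)
    rcases (hLE hzL).1 with h | h
    · exact absurd h (hLE hzL).2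
    · exact ⟨(φ z).re, z, hzL, by apply Complex.ext <;> simp [hφ, h]⟩
  have huniv : T = univ := (isClopen_iff.mp ⟨hTc.isClosed, hTopen⟩).resolve_left hTn.ne_empty
  rw [huniv] at hTc
  exact noncompact_univ ℝ hTc

lemma eval_reflect {N : ℕ} {P : ℂ[X]} (hP : P.natDegree ≤ N) {w : ℂ} (hw : w ≠ 0) :
    (reflect N P).eval w = P.eval w⁻¹ * w ^ N := by
  let _ : Invertible w⁻¹ := invertibleOfNonzero (inv_ne_zero hw)
  have h := eval₂_reflect_mul_pow (RingHom.id ℂ) w⁻¹ N P hP
  have h1 : (⅟(w⁻¹) : ℂ) = w := by rw [invOf_eq_inv, inv_inv]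
  rw [h1] at h
  simp only [eval₂_id] at h
  rw [← h, mul_assoc, ← mul_pow, inv_mul_cancel₀ hw, one_pow, mul_one]

/-- If `∞` is not a pole, then some pole lies on an unbounded component. -/
lemma exists_unbounded (hco : IsCoprime f g) (hg0 : g ≠ 0) (hroot : ∃ p, g.eval p = 0)
    (hdeg : f.natDegree ≤ g.natDegree) :
    ∃ p, g.eval p = 0 ∧
      ¬ Bornology.IsBounded (connectedComponentIn (realLocus f g) p) := by
  by_contra! hno
  have hmemE : ∀ p, g.eval p = 0 → p ∈ realLocus f g := fun p hp => Or.inl hp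
  have hL : ∀ p : ℂ, ∃ L : Set ℂ, g.eval p = 0 →
      p ∈ L ∧ L ⊆ realLocus f g ∧ IsCompact L ∧ IsClosed (realLocus f g \ L) := by
    intro p
    by_cases hp : g.eval p = 0
    · obtain ⟨L, h1, h2, h3, h4⟩ := exists_compact_open isClosed_realLocus (hmemE p hp)
        (hno p hp) isOpen_univ (subset_univ _)
      exact ⟨L, fun _ => ⟨h1 (mem_connectedComponentIn (hmemE p hp)), fun w hw => (h2 hw).1,
        h3, h4⟩⟩
    · exact ⟨∅, fun h => absurd h hp⟩
  choose L' hL' using hL
  have hmr : ∀ p, p ∈ g.roots.toFinset ↔ g.eval p = 0 := by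
    intro p
    rw [Multiset.mem_toFinset, mem_roots hg0, IsRoot.def]
  set L : Set ℂ := ⋃ p ∈ g.roots.toFinset, L' p with hLdef
  have hLc : IsCompact L := by
    apply (g.roots.toFinset).isCompact_biUnion
    intro p hp
    exact (hL' p ((hmr p).mp hp)).2.2.1
  have hcl : IsClosed (realLocus f g \ L) := by
    have : realLocus f g \ L =
        realLocus f g ∩ ⋂ p ∈ g.roots.toFinset, (realLocus f g \ L' p) := by
      ext w
      simp only [hLdef, Set.mem_sdiff, mem_iUnion, mem_inter_iff, mem_iInter, not_exists]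
      constructor
      · rintro ⟨h1, h2⟩
        exact ⟨h1, fun p hp => ⟨h1, h2 p hp⟩⟩
      · rintro ⟨h1, h2⟩
        exact ⟨h1, fun p hp => (h2 p hp).2⟩
    rw [this]
    apply isClosed_realLocus.inter
    apply isClosed_biInter
    intro p hp
    exact (hL' p ((hmr p).mp hp)).2.2.2
  have hrootL : ∀ p, g.eval p = 0 → p ∈ L := by
    intro p hp
    exact mem_biUnion ((hmr p).mpr hp) (hL' p hp).1
  set W := realLocus f g \ L with hW
  have hWg : ∀ w ∈ W, g.eval w ≠ 0 := fun w hw h => hw.2 (hrootL w h)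
  set φ := deriv (ratFun f g) with hφ
  have hφc : ∀ w, g.eval w ≠ 0 → ContinuousAt φ w :=
    fun w hw => (analyticAt_ratFun hw).deriv.continuousAt
  -- the behaviour at infinity
  obtain ⟨p0, hp0⟩ := hroot
  have hroot : ∃ p, g.eval p = 0 := ⟨p0, hp0⟩
  have hgpos : 0 < g.natDegree := by
    rw [Nat.pos_iff_ne_zero]
    intro h
    rw [eq_C_of_natDegree_eq_zero h, eval_C] at hp0
    apply hg0
    rw [eq_C_of_natDegree_eq_zero h, hp0, C_0]
  set N := 2 * g.natDegree with hN
  set H := derivative f * g - f * derivative g with hH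
  have hHdeg : H.natDegree < N := by
    have h1 : (derivative f * g).natDegree ≤ N - 1 := by
      by_cases hf : f.natDegree = 0
      · rw [eq_C_of_natDegree_eq_zero hf, derivative_C, zero_mul, natDegree_zero]
        omega
      · have := natDegree_mul_le (p := derivative f) (q := g)
        have := natDegree_derivative_lt hf
        omega
    have h2 : (f * derivative g).natDegree ≤ N - 1 := by
      have := natDegree_mul_le (p := f) (q := derivative g)
      have := natDegree_derivative_lt hgpos.ne'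
      omega
    have h3 := natDegree_sub_le (derivative f * g) (f * derivative g)
    rw [← hH] at h3
    omega
  have hg2deg : (g ^ 2).natDegree = N := by
    rw [natDegree_pow]
  let ψ : ℂ → ℂ := fun w => (reflect N H).eval w / (reflect N (g ^ 2)).eval w
  have hden0 : (reflect N (g ^ 2)).eval 0 ≠ 0 := by
    rw [← coeff_zero_eq_eval_zero, coeff_reflect, revAt_zero, ← hg2deg, coeff_natDegree,
      leadingCoeff_pow]
    exact pow_ne_zero _ (leadingCoeff_ne_zero.mpr hg0)
  have hnum0 : (reflect N H).eval 0 = 0 := by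
    rw [← coeff_zero_eq_eval_zero, coeff_reflect, revAt_zero]
    exact coeff_eq_zero_of_natDegree_lt hHdeg
  have hψ0 : ψ 0 = 0 := by
    simp only [ψ, hnum0, zero_div]
  have hψan : AnalyticAt ℂ ψ 0 := (analyticAt_eval _ 0).div (analyticAt_eval _ 0) hden0
  have hψφ : ∀ w, w ≠ 0 → g.eval w⁻¹ ≠ 0 → ψ w = φ w⁻¹ := by
    intro w hw hgw
    have hwN : w ^ N ≠ 0 := pow_ne_zero _ hw
    simp only [ψ]
    rw [eval_reflect hHdeg.le hw, eval_reflect hg2deg.le hw, mul_div_mul_right _ _ hwN, hφ,
      deriv_ratFun hgw, eval_pow]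
  have hψopen : 𝓝 (ψ 0) ≤ map ψ (𝓝 0) := by
    rcases hψan.eventually_constant_or_nhds_le_map_nhds with h | h
    · exfalso
      have hzero : reflect N H = 0 := by
        apply Polynomial.eq_zero_of_infinite_isRoot
        have hcont : ContinuousAt (fun w => (reflect N (g ^ 2)).eval w) 0 :=
          (reflect N (g ^ 2)).continuous.continuousAt
        have h1 : ∀ᶠ w in 𝓝 (0 : ℂ), (reflect N (g ^ 2)).eval w ≠ 0 := hcont.eventually_ne hden0
        refine (infinite_of_mem_nhds (0 : ℂ) (h.and h1)).mono ?_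
        rintro w ⟨hw1, hw2⟩
        rw [hψ0] at hw1
        simp only [ψ] at hw1
        exact (div_eq_zero_iff.mp hw1).resolve_right hw2
      rw [reflect_eq_zero_iff] at hzero
      obtain ⟨z, hz⟩ : ∃ z, g.eval z ≠ 0 := by
        by_contra! h
        exact hg0 (Polynomial.funext (by simpa using h))
      apply not_eventually_const hco hg0 hroot hz
      have h1 : ∀ᶠ w in 𝓝 z, g.eval w ≠ 0 :=
        (g.continuous.continuousAt (x := z)).eventually_ne hz
      filter_upwards [h1] with w hw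
      rw [deriv_ratFun hw, deriv_ratFun hz, ← hH, hzero]
      simp
    · exact h
  obtain ⟨M0, hM0⟩ := hLc.isBounded.subset_ball 0
  have hbig : ∀ w : ℂ, M0 ≤ ‖w‖ → w ∉ L := by
    intro w hw hwL
    have := hM0 hwL
    rw [mem_ball_zero_iff] at this
    linarith
  -- `φ` tends to zero at infinity
  have hsmall : ∀ ε : ℝ, 0 < ε → ∃ M : ℝ, ∀ w : ℂ, M ≤ ‖w‖ → g.eval w ≠ 0 → ‖φ w‖ < ε := by
    intro ε hε
    have h1 := hψan.continuousAt
    rw [Metric.continuousAt_iff] at h1
    obtain ⟨δ, hδ, h2⟩ := h1 ε hε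
    refine ⟨2 / δ, fun w hw hgw => ?_⟩
    have hwpos : 0 < ‖w‖ := lt_of_lt_of_le (by positivity) hw
    have hw0 : w ≠ 0 := norm_pos_iff.mp hwpos
    have h3 := h2 (x := w⁻¹) (by
      rw [dist_zero_right, norm_inv, inv_lt_comm₀ hwpos hδ]
      refine lt_of_lt_of_le ?_ hw
      rw [inv_eq_one_div]
      gcongr
      norm_num)
    rw [hψ0, dist_zero_right, hψφ _ (inv_ne_zero hw0) (by rwa [inv_inv]), inv_inv] at h3
    exact h3
  let T : Set ℝ := {x | x = 0 ∨ ∃ w ∈ W, φ w = x}
  have hTopen : IsOpen T := by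
    rw [isOpen_iff_mem_nhds]
    rintro x (rfl | ⟨w, hw, hx⟩)
    · have hN : {w : ℂ | w = 0 ∨ M0 ≤ ‖w⁻¹‖} ∈ 𝓝 (0 : ℂ) := by
        rw [Metric.mem_nhds_iff]
        refine ⟨(|M0| + 1)⁻¹, by positivity, fun w hw => ?_⟩
        rw [mem_ball_zero_iff] at hw
        by_cases hw0 : w = 0
        · exact Or.inl hw0
        · right
          have hwpos : 0 < ‖w‖ := norm_pos_iff.mpr hw0
          rw [lt_inv_comm₀ hwpos (by positivity)] at hw
          rw [norm_inv]
          have := le_abs_self M0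
          linarith
      filter_upwards [real_nhds (x := 0) hψopen (by simpa using hψ0) hN]
      rintro y ⟨w, hw, hwy⟩
      by_cases hw0 : w = 0
      · left
        rw [hw0, hψ0] at hwy
        exact_mod_cast hwy.symm
      · right
        have hwL : w⁻¹ ∉ L := hbig _ (hw.resolve_left hw0)
        have hgw : g.eval w⁻¹ ≠ 0 := fun h => hwL (hrootL _ h)
        rw [hψφ w hw0 hgw] at hwy
        have hwy' : deriv (ratFun f g) w⁻¹ = (y : ℂ) := hwy
        exact ⟨w⁻¹, ⟨Or.inr (by rw [hwy', Complex.ofReal_im]), hwL⟩, hwy⟩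
    · have hwg : g.eval w ≠ 0 := hWg w hw
      have hN : Lᶜ ∈ 𝓝 w := hLc.isClosed.isOpen_compl.mem_nhds hw.2
      filter_upwards [real_nhds (nhds_le_map hco hg0 hroot hwg) hx hN]
      rintro y ⟨v, hv1, hv3⟩
      have hv4 : deriv (ratFun f g) v = (y : ℂ) := hv3
      exact Or.inr ⟨v, ⟨Or.inr (by rw [hv4, Complex.ofReal_im]), hv1⟩, hv3⟩
  have himg : ∀ M : ℝ, IsCompact (φ '' (W ∩ Metric.closedBall 0 M)) := by
    intro M
    apply ((isCompact_closedBall (0 : ℂ) M).inter_left hcl).image_of_continuousOn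
    intro w hw
    exact (hφc w (hWg w hw.1)).continuousWithinAt
  have hTclosed : IsClosed T := by
    rw [← isOpen_compl_iff, isOpen_iff_mem_nhds]
    intro x hx
    have hx0 : x ≠ 0 := fun h => hx (Or.inl h)
    have hxW : ¬ ∃ w ∈ W, φ w = x := fun h => hx (Or.inr h)
    obtain ⟨M, hM⟩ := hsmall (|x| / 2) (by positivity)
    have h1 : (φ '' (W ∩ Metric.closedBall 0 M))ᶜ ∈ 𝓝 (x : ℂ) := by
      apply (himg M).isClosed.isOpen_compl.mem_nhds
      rintro ⟨w, hw, hw2⟩
      exact hxW ⟨w, hw.1, hw2⟩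
    have h2 : ∀ᶠ y : ℝ in 𝓝 x, (y : ℂ) ∈ (φ '' (W ∩ Metric.closedBall 0 M))ᶜ :=
      Complex.continuous_ofReal.continuousAt h1
    have h3 : ∀ᶠ y : ℝ in 𝓝 x, |x| / 2 < |y| := by
      have : ContinuousAt (fun y : ℝ => |y|) x := continuous_abs.continuousAt
      apply this.eventually_const_lt
      have := abs_pos.mpr hx0
      linarith
    filter_upwards [h2, h3] with y hy1 hy2
    rintro (rfl | ⟨w, hw, hwy⟩)
    · rw [abs_zero] at hy2
      have := abs_pos.mpr hx0
      linarith
    · by_cases hwM : M ≤ ‖w‖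
      · have h4 := hM w hwM (hWg w hw)
        rw [hwy, Complex.norm_real, Real.norm_eq_abs] at h4
        linarith
      · exact hy1 ⟨w, ⟨hw, by rw [mem_closedBall_zero_iff]; linarith⟩, hwy⟩
  have huniv : T = univ := (isClopen_iff.mp ⟨hTclosed, hTopen⟩).resolve_left
    (Set.Nonempty.ne_empty ⟨0, Or.inl rfl⟩)
  obtain ⟨M, hM⟩ := hsmall 1 one_pos
  obtain ⟨C1, hC1⟩ := (himg M).isBounded.exists_norm_le
  have hmem : (|C1| + 2) ∈ T := by rw [huniv]; trivial
  have hC1' := le_abs_self C1
  have hC1'' := abs_nonneg C1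
  rcases hmem with h | ⟨w, hw, hwy⟩
  · linarith
  · have hnorm : ‖φ w‖ = |C1| + 2 := by
      rw [hwy, Complex.norm_real, Real.norm_eq_abs, abs_of_pos (by positivity)]
    by_cases hwM : M ≤ ‖w‖
    · have h4 := hM w hwM (hWg w hw)
      linarith
    · have h4 := hC1 (φ w) ⟨w, ⟨hw, by rw [mem_closedBall_zero_iff]; linarith⟩, rfl⟩
      linarith

end Analysis

section Construction

lemma choose_c {ι : Type*} [DecidableEq ι] (s : Finset ι) (w : ι → ℂ) (hw : ∀ i ∈ s, w i ≠ 0) :
    ∃ c : ℂ, c ≠ 0 ∧ ∀ i ∈ s, (c * w i).im ≠ 0 := by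
  classical
  obtain ⟨t, ht⟩ := Infinite.exists_notMem_finset (s.image fun i => -(w i).im / (w i).re)
  refine ⟨1 + t * Complex.I, ?_, ?_⟩
  · intro h
    have := congrArg Complex.re h
    simp at this
  · intro i hi h
    have h1 : (w i).im + t * (w i).re = 0 := by
      have : ((1 + t * Complex.I) * w i).im = (w i).im + t * (w i).re := by
        simp [Complex.mul_im, Complex.add_re, Complex.add_im]
      rw [← this]; exact h
    by_cases hre : (w i).re = 0
    · rw [hre, mul_zero, add_zero] at h1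
      exact hw i hi (Complex.ext hre h1)
    · apply ht
      rw [Finset.mem_image]
      refine ⟨i, hi, ?_⟩
      rw [div_eq_iff hre]
      linarith

lemma perturb (S' S : Finset ℂ) (A B : ℂ → ℂ) (hA : ∀ p ∈ S', ContinuousAt A p)
    (him : ∀ p ∈ S', (A p).im ≠ 0) (hB : ∀ z, z ∉ S → ContinuousAt B z) :
    ∃ r : ℝ, 0 < r ∧ ∃ ε : ℝ, ε ≠ 0 ∧
      (∀ p ∈ S', ∀ z, dist z p = r → z ∉ S ∧ (A z + ε * B z).im ≠ 0) ∧
      ∀ p ∈ S', ∀ q ∈ S', q ≠ p → r < dist q p := by
  have hlt : ∀ c : ℝ, 0 < c → ∀ᶠ r in 𝓝[>] (0 : ℝ), r < c := fun c hc =>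
    Filter.mem_of_superset (Ioo_mem_nhdsGT hc) fun x hx => hx.2
  have h1 : ∀ p ∈ S', ∀ᶠ r in 𝓝[>] (0 : ℝ),
      ∀ z, dist z p = r → |(A z).im - (A p).im| < |(A p).im| / 2 := by
    intro p hp
    have hc : ContinuousAt (fun z => (A z).im) p :=
      Complex.continuous_im.continuousAt.comp (hA p hp)
    rw [Metric.continuousAt_iff] at hc
    have hpos : 0 < |(A p).im| := abs_pos.mpr (him p hp)
    obtain ⟨δ, hδ, h⟩ := hc (|(A p).im| / 2) (by positivity)
    filter_upwards [hlt δ hδ] with r hr z hz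
    have := h (x := z) (by rw [hz]; exact hr)
    rwa [Real.dist_eq] at this
  have h2 : ∀ p ∈ S', ∀ᶠ r in 𝓝[>] (0 : ℝ), ∀ q ∈ S ∪ S', q ≠ p → r < dist q p := by
    intro p _
    rw [eventually_all_finset]
    intro q _
    by_cases hqp : q = p
    · filter_upwards with r h using absurd hqp h
    · filter_upwards [hlt _ (dist_pos.mpr hqp)] with r hr _ using hr
  have h3 : ∀ᶠ r in 𝓝[>] (0 : ℝ), ∀ p ∈ S',
      (∀ z, dist z p = r → |(A z).im - (A p).im| < |(A p).im| / 2) ∧
      ∀ q ∈ S ∪ S', q ≠ p → r < dist q p := by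
    rw [eventually_all_finset]
    intro p hp
    exact (h1 p hp).and (h2 p hp)
  have h4 : ∀ᶠ r in 𝓝[>] (0 : ℝ), 0 < r := self_mem_nhdsWithin
  obtain ⟨r, hr, hr0⟩ := (h3.and h4).exists
  have hzS : ∀ p ∈ S', ∀ z, dist z p = r → z ∉ S := by
    intro p hp z hz hzS
    have hzp : z ≠ p := by
      rintro rfl
      rw [dist_self] at hz
      exact hr0.ne hz
    have := (hr p hp).2 z (Finset.mem_union_left _ hzS) hzp
    rw [hz] at this
    exact lt_irrefl _ this
  have h5 : ∀ p ∈ S', ∀ᶠ ε : ℝ in 𝓝[>] (0 : ℝ), ∀ z, dist z p = r → (A z + ε * B z).im ≠ 0 := by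
    intro p hp
    have hpos : 0 < |(A p).im| := abs_pos.mpr (him p hp)
    obtain ⟨K, hK⟩ := (((isCompact_sphere p r).image_of_continuousOn (f := B)
      (fun z hz => (hB z (hzS p hp z hz)).continuousWithinAt)).isBounded).exists_norm_le
    have hK0 : (0 : ℝ) < |K| + 1 := by positivity
    filter_upwards [hlt (|(A p).im| / 2 / (|K| + 1)) (by positivity), h4] with ε hε hε0 z hz h
    have hBz : ‖B z‖ ≤ K := hK _ ⟨z, hz, rfl⟩
    have h6 := (hr p hp).1 z hz
    rw [Complex.add_im, Complex.im_ofReal_mul] at h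
    have h7 : |ε * (B z).im| < |(A p).im| / 2 := by
      rw [abs_mul, abs_of_pos hε0]
      calc ε * |(B z).im| ≤ ε * (|K| + 1) := by
            apply mul_le_mul_of_nonneg_left _ hε0.le
            have := Complex.abs_im_le_norm (B z)
            have := le_abs_self K
            linarith
        _ < |(A p).im| / 2 / (|K| + 1) * (|K| + 1) := by
            apply mul_lt_mul_of_pos_right hε hK0
        _ = |(A p).im| / 2 := by field_simp
    have h8 : (A z).im = - (ε * (B z).im) := by linarith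
    rw [h8] at h6
    have h9 : |(A p).im| ≤ |-(ε * (B z).im) - (A p).im| + |ε * (B z).im| := by
      have := abs_add_le (-(-(ε * (B z).im) - (A p).im)) (-(ε * (B z).im))
      rw [abs_neg, abs_neg] at this
      have h10 : -(-(ε * (B z).im) - (A p).im) + -(ε * (B z).im) = (A p).im := by ring
      rwa [h10] at this
    linarith
  have h6 : ∀ᶠ ε : ℝ in 𝓝[>] (0 : ℝ), ∀ p ∈ S', ∀ z, dist z p = r → (A z + ε * B z).im ≠ 0 := by
    rw [eventually_all_finset]
    exact h5
  obtain ⟨ε, hε, hε0⟩ := (h6.and h4).exists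
  exact ⟨r, hr0, ε, hε0.ne', fun p hp z hz => ⟨hzS p hp z hz, hε p hp z hz⟩,
    fun p hp q hq hqp => (hr p hp).2 q (Finset.mem_union_right _ hq) hqp⟩

lemma many_components {f g : ℂ[X]} {S' : Finset ℂ} {r : ℝ} (hr : 0 < r)
    (hmem : ∀ p ∈ S', p ∈ realLocus f g)
    (hsph : ∀ p ∈ S', ∀ z, dist z p = r → z ∉ realLocus f g)
    (hsep : ∀ p ∈ S', ∀ q ∈ S', q ≠ p → r < dist q p) :
    (S'.card : ℕ∞) ≤ (boundedComponents f g).encard := by
  have hball : ∀ p ∈ S', connectedComponentIn (realLocus f g) p ⊆ Metric.ball p r := by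
    intro p hp
    apply IsPreconnected.subset_left_of_subset_union (v := (Metric.closedBall p r)ᶜ)
      Metric.isOpen_ball Metric.isClosed_closedBall.isOpen_compl
    · rw [Set.disjoint_compl_right_iff_subset]
      exact Metric.ball_subset_closedBall
    · intro z hz
      have hzE := connectedComponentIn_subset _ _ hz
      rcases lt_trichotomy (dist z p) r with h | h | h
      · exact Or.inl h
      · exact absurd hzE (hsph p hp z h)
      · right
        rw [mem_compl_iff, Metric.mem_closedBall, not_le]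
        exact h
    · exact ⟨p, mem_connectedComponentIn (hmem p hp), Metric.mem_ball_self hr⟩
    · exact isPreconnected_connectedComponentIn
  have hinj : Set.InjOn (fun p => connectedComponentIn (realLocus f g) p) (S' : Set ℂ) := by
    intro p hp q hq hpq
    by_contra hne
    have h1 : q ∈ connectedComponentIn (realLocus f g) p := by
      simp only at hpq
      rw [hpq]
      exact mem_connectedComponentIn (hmem q hq)
    have h2 := hball p hp h1
    rw [Metric.mem_ball] at h2
    have h3 := hsep p hp q hq (Ne.symm hne)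
    linarith
  calc (S'.card : ℕ∞) = (S' : Set ℂ).encard := (Set.encard_coe_eq_coe_finsetCard S').symm
    _ = ((fun p => connectedComponentIn (realLocus f g) p) '' (S' : Set ℂ)).encard :=
        hinj.encard_image.symm
    _ ≤ (boundedComponents f g).encard := by
        apply Set.encard_le_encard
        rintro _ ⟨p, hp, rfl⟩
        exact ⟨p, hmem p hp, rfl, Metric.isBounded_ball.subset (hball p hp)⟩

lemma build {S S' : Finset ℂ} {g P0 Q : ℂ[X]} {A : ℂ → ℂ} (hg : ∀ z, g.eval z = 0 ↔ z ∈ S)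
    (hsub : S' ⊆ S) (hPA : ∀ z, z ∉ S → P0.eval z / g.eval z = A z)
    (hA : ∀ z, z ∉ S ∨ z ∈ S' → AnalyticAt ℂ A z) (him : ∀ p ∈ S', (deriv A p).im ≠ 0) :
    ∃ ε : ℝ, ε ≠ 0 ∧
      (S'.card : ℕ∞) ≤ (boundedComponents (P0 + C (ε : ℂ) * Q) g).encard := by
  have hB : ∀ z, z ∉ S → AnalyticAt ℂ (ratFun Q g) z := fun z hz =>
    analyticAt_ratFun (fun h => hz ((hg z).mp h))
  obtain ⟨r, hr, ε, hε, h1, h2⟩ := perturb S' S (deriv A) (deriv (ratFun Q g))
    (fun p hp => (hA p (Or.inr hp)).deriv.continuousAt) him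
    (fun z hz => (hB z hz).deriv.continuousAt)
  refine ⟨ε, hε, many_components hr (fun p hp => Or.inl ((hg p).mpr (hsub hp))) ?_ h2⟩
  intro p hp z hz hmem
  obtain ⟨hzS, him'⟩ := h1 p hp z hz
  rcases hmem with hmem | hmem
  · exact hzS ((hg z).mp hmem)
  · apply him'
    rw [← hmem]
    congr 1
    have hev : ratFun (P0 + C (ε : ℂ) * Q) g =ᶠ[𝓝 z] fun w => A w + ε * ratFun Q g w := by
      have hopen : IsOpen ((S : Set ℂ)ᶜ) := S.finite_toSet.isClosed.isOpen_compl
      filter_upwards [hopen.mem_nhds hzS] with w hw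
      rw [← hPA w hw, ratFun, ratFun, eval_add, eval_mul, eval_C]
      ring
    rw [hev.deriv_eq, deriv_fun_add (hA z (Or.inl hzS)).differentiableAt
      ((hB z hzS).differentiableAt.const_mul _), deriv_const_mul _ (hB z hzS).differentiableAt]

end Construction

section Main

/-- The product of the other pole factors. -/
noncomputable def Qp (D : ℂ →₀ ℕ) (p : ℂ) : ℂ[X] := ∏ q ∈ D.support.erase p, (X - C q) ^ D q

/-- The denominator with the prescribed zeros. -/
noncomputable def den (D : ℂ →₀ ℕ) : ℂ[X] := ∏ q ∈ D.support, (X - C q) ^ D q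

lemma den_eq (D : ℂ →₀ ℕ) {p : ℂ} (hp : p ∈ D.support) :
    den D = (X - C p) ^ D p * Qp D p := by
  rw [den, Qp]
  exact (Finset.mul_prod_erase D.support (fun q => (X - C q) ^ D q) hp).symm

lemma den_monic (D : ℂ →₀ ℕ) : (den D).Monic := by
  apply monic_prod_of_monic
  intro q _
  exact (monic_X_sub_C q).pow _

lemma den_ne_zero (D : ℂ →₀ ℕ) : den D ≠ 0 := (den_monic D).ne_zero

lemma Qp_monic (D : ℂ →₀ ℕ) (p : ℂ) : (Qp D p).Monic := by
  apply monic_prod_of_monic
  intro q _
  exact (monic_X_sub_C q).pow _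

lemma eval_den (D : ℂ →₀ ℕ) (z : ℂ) : (den D).eval z = 0 ↔ z ∈ D.support := by
  rw [den, eval_prod, Finset.prod_eq_zero_iff]
  constructor
  · rintro ⟨q, hq, h⟩
    rw [eval_pow, eval_sub, eval_X, eval_C] at h
    have := pow_eq_zero_iff (Finsupp.mem_support_iff.mp hq) |>.mp h
    rwa [sub_eq_zero.mp this]
  · intro hz
    refine ⟨z, hz, ?_⟩
    rw [eval_pow, eval_sub, eval_X, eval_C, sub_self, zero_pow (Finsupp.mem_support_iff.mp hz)]

lemma eval_Qp_self (D : ℂ →₀ ℕ) (p : ℂ) : (Qp D p).eval p ≠ 0 := by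
  rw [Qp, eval_prod, Finset.prod_ne_zero_iff]
  intro q hq
  rw [eval_pow, eval_sub, eval_X, eval_C]
  exact pow_ne_zero _ (sub_ne_zero.mpr (Finset.ne_of_mem_erase hq).symm)

lemma eval_Qp_of_ne (D : ℂ →₀ ℕ) {p q : ℂ} (hp : p ∈ D.support) (hpq : p ≠ q) :
    (Qp D q).eval p = 0 := by
  rw [Qp, eval_prod, Finset.prod_eq_zero_iff]
  refine ⟨p, Finset.mem_erase.mpr ⟨hpq, hp⟩, ?_⟩
  rw [eval_pow, eval_sub, eval_X, eval_C, sub_self, zero_pow (Finsupp.mem_support_iff.mp hp)]

lemma rootMultiplicity_den (D : ℂ →₀ ℕ) (p : ℂ) : (den D).rootMultiplicity p = D p := by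
  by_cases hp : p ∈ D.support
  · rw [den_eq D hp, mul_comm, rootMultiplicity_mul_X_sub_C_pow (Qp_monic D p).ne_zero,
      rootMultiplicity_eq_zero (eval_Qp_self D p), zero_add]
  · rw [rootMultiplicity_eq_zero (fun h => hp ((eval_den D p).mp h))]
    exact (Finsupp.notMem_support_iff.mp hp).symm

lemma coprime_den (D : ℂ →₀ ℕ) {F : ℂ[X]} (hF : ∀ p ∈ D.support, F.eval p ≠ 0) :
    IsCoprime F (den D) := by
  apply IsCoprime.prod_right
  intro q hq
  apply IsCoprime.pow_right
  apply IsCoprime.symm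
  rw [(irreducible_X_sub_C q).coprime_iff_not_dvd, dvd_iff_isRoot]
  exact hF q hq

lemma natDegree_Qp_le (D : ℂ →₀ ℕ) (p : ℂ) : (Qp D p).natDegree ≤ (den D).natDegree := by
  apply natDegree_le_of_dvd _ (den_ne_zero D)
  exact Finset.prod_dvd_prod_of_subset _ _ _ (Finset.erase_subset _ _)

lemma natDegree_sum_le' (D : ℂ →₀ ℕ) (s : Finset ℂ) (ε : ℂ) :
    (C ε * ∑ p ∈ s, Qp D p).natDegree ≤ (den D).natDegree := by
  refine (natDegree_C_mul_le _ _).trans ?_
  apply natDegree_sum_le_of_forall_le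
  intro p _
  exact natDegree_Qp_le D p

lemma eval_sum_Qp (D : ℂ →₀ ℕ) {s : Finset ℂ} {p : ℂ} (hp : p ∈ D.support) (hps : p ∈ s) :
    (∑ q ∈ s, Qp D q).eval p = (Qp D p).eval p := by
  rw [eval_finsetSum, Finset.sum_eq_single_of_mem p hps]
  intro q _ hqp
  exact eval_Qp_of_ne D hp (Ne.symm hqp)

lemma eval_sum_Qp_of_notMem (D : ℂ →₀ ℕ) {s : Finset ℂ} {p : ℂ} (hp : p ∈ D.support)
    (hps : p ∉ s) : (∑ q ∈ s, Qp D q).eval p = 0 := by
  rw [eval_finsetSum]
  apply Finset.sum_eq_zero
  intro q hq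
  exact eval_Qp_of_ne D hp (fun h => hps (h ▸ hq))

/-- The lower bound when `∞` is a pole. -/
lemma lower_infty (D : ℂ →₀ ℕ) {m : ℕ} (hm : m ≠ 0) :
    ∃ f g, HasPoleDivisor f g D m ∧ (D.support.card : ℕ∞) ≤ (boundedComponents f g).encard := by
  classical
  obtain ⟨a, ha⟩ := Infinite.exists_notMem_finset D.support
  obtain ⟨c, hc0, hc⟩ := choose_c D.support (fun p => (m : ℂ) * (p - a) ^ (m - 1)) (by
    intro p hp
    apply mul_ne_zero (by exact_mod_cast hm)
    apply pow_ne_zero
    rw [sub_ne_zero]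
    rintro rfl
    exact ha hp)
  obtain ⟨ε, hε, hcard⟩ := build (S := D.support) (S' := D.support) (g := den D)
    (P0 := C c * (X - C a) ^ m * den D) (Q := ∑ p ∈ D.support, Qp D p)
    (A := fun z => c * (z - a) ^ m) (eval_den D) (Finset.Subset.refl _)
    (by
      intro z hz
      have : (den D).eval z ≠ 0 := fun h => hz ((eval_den D z).mp h)
      rw [eval_mul, mul_div_assoc, div_self this, mul_one]
      simp)
    (by
      intro z _
      fun_prop)
    (by
      intro p hp
      have h1 : deriv (fun z : ℂ => c * (z - a) ^ m) p = c * (m * (p - a) ^ (m - 1)) := by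
        have h2 : HasDerivAt (fun z : ℂ => c * (z - a) ^ m) (c * (m * (p - a) ^ (m - 1) * 1)) p :=
          (((hasDerivAt_id p).sub_const a).pow m).const_mul c
        rw [h2.deriv, mul_one]
      rw [h1]
      exact hc p hp)
  refine ⟨_, _, ⟨coprime_den D ?_, den_ne_zero D, rootMultiplicity_den D, ?_⟩, hcard⟩
  · intro p hp
    rw [eval_add, eval_mul, (eval_den D p).mpr hp, mul_zero, zero_add, eval_mul, eval_C,
      eval_sum_Qp D hp hp]
    exact mul_ne_zero (by exact_mod_cast hε) (eval_Qp_self D p)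
  · have hmon : ((X - C a) ^ m * den D).Monic := ((monic_X_sub_C a).pow m).mul (den_monic D)
    have h1 : (C c * (X - C a) ^ m * den D).natDegree = m + (den D).natDegree := by
      rw [mul_assoc, natDegree_C_mul hc0, ((monic_X_sub_C a).pow m).natDegree_mul (den_monic D),
        natDegree_pow, natDegree_X_sub_C, mul_one]
    have h2 := natDegree_sum_le' D D.support (ε : ℂ)
    rw [natDegree_add_eq_left_of_natDegree_lt (by omega), h1]
    omega

/-- The lower bound when `∞` is not a pole. -/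
lemma lower_finite (D : ℂ →₀ ℕ) (hD : D.support.Nonempty) :
    ∃ f g, HasPoleDivisor f g D 0 ∧
      ((D.support.card - 1 : ℕ) : ℕ∞) ≤ (boundedComponents f g).encard := by
  classical
  obtain ⟨p0, hp0⟩ := hD
  have hk : D p0 ≠ 0 := Finsupp.mem_support_iff.mp hp0
  obtain ⟨c, hc0, hc⟩ := choose_c (D.support.erase p0)
    (fun p => -((D p0 : ℂ) * (p - p0) ^ (D p0 - 1)) / ((p - p0) ^ D p0) ^ 2) (by
    intro p hp
    have hne : p - p0 ≠ 0 := sub_ne_zero.mpr (Finset.ne_of_mem_erase hp)
    apply div_ne_zero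
    · apply neg_ne_zero.mpr
      exact mul_ne_zero (by exact_mod_cast hk) (pow_ne_zero _ hne)
    · exact pow_ne_zero _ (pow_ne_zero _ hne))
  obtain ⟨ε, hε, hcard⟩ := build (S := D.support) (S' := D.support.erase p0) (g := den D)
    (P0 := C c * Qp D p0) (Q := ∑ p ∈ D.support.erase p0, Qp D p)
    (A := fun z => c * ((z - p0) ^ D p0)⁻¹) (eval_den D) (Finset.erase_subset _ _)
    (by
      intro z hz
      have h1 : (den D).eval z ≠ 0 := fun h => hz ((eval_den D z).mp h)
      rw [den_eq D hp0, eval_mul] at h1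
      have h2 : (Qp D p0).eval z ≠ 0 := right_ne_zero_of_mul h1
      rw [den_eq D hp0, eval_mul, eval_mul, eval_C, mul_div_mul_right _ _ h2]
      simp [div_eq_mul_inv])
    (by
      intro z hz
      have hne : z - p0 ≠ 0 := by
        rw [sub_ne_zero]
        rintro rfl
        rcases hz with hz | hz
        · exact hz hp0
        · exact (Finset.notMem_erase _ _) hz
      have h1 : AnalyticAt ℂ (fun z : ℂ => (z - p0) ^ D p0) z := by fun_prop
      exact analyticAt_const.mul (h1.inv (pow_ne_zero _ hne)))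
    (by
      intro p hp
      have hne : p - p0 ≠ 0 := sub_ne_zero.mpr (Finset.ne_of_mem_erase hp)
      have h2 := ((((hasDerivAt_id p).sub_const p0).pow (D p0)).inv
        (pow_ne_zero _ hne)).const_mul c
      have h3 : deriv (fun z : ℂ => c * ((z - p0) ^ D p0)⁻¹) p =
          c * (-((D p0 : ℂ) * (p - p0) ^ (D p0 - 1)) / ((p - p0) ^ D p0) ^ 2) := by
        have := h2.deriv
        simpa using this
      rw [h3]
      exact hc p hp)
  refine ⟨C c * Qp D p0 + C (ε : ℂ) * ∑ p ∈ D.support.erase p0, Qp D p, den D,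
    ⟨coprime_den D ?_, den_ne_zero D, rootMultiplicity_den D, ?_⟩, ?_⟩
  · intro p hp
    by_cases hpp : p = p0
    · rw [hpp, eval_add, eval_mul, eval_C, eval_mul,
        eval_sum_Qp_of_notMem D hp0 (Finset.notMem_erase _ _), mul_zero, add_zero]
      exact mul_ne_zero hc0 (eval_Qp_self D p0)
    · rw [eval_add, eval_mul, eval_Qp_of_ne D hp hpp, mul_zero, zero_add, eval_mul, eval_C,
        eval_sum_Qp D hp (Finset.mem_erase.mpr ⟨hpp, hp⟩)]
      exact mul_ne_zero (by exact_mod_cast hε) (eval_Qp_self D p)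
  · have h1 : (C c * Qp D p0).natDegree ≤ (den D).natDegree :=
      (natDegree_C_mul_le _ _).trans (natDegree_Qp_le D p0)
    have h2 := natDegree_sum_le' D (D.support.erase p0) (ε : ℂ)
    have h3 := natDegree_add_le (C c * Qp D p0)
      (C (ε : ℂ) * ∑ p ∈ D.support.erase p0, Qp D p)
    omega
  · rw [Finset.card_erase_of_mem hp0] at hcard
    exact hcard

/-- The upper bound. -/
lemma upper {f g : ℂ[X]} {D : ℂ →₀ ℕ} {m : ℕ} (hD : D.support.Nonempty)
    (h : HasPoleDivisor f g D m) :
    (boundedComponents f g).encard ≤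
      ((if m = 0 then D.support.card - 1 else D.support.card : ℕ) : ℕ∞) := by
  classical
  have hroots : ∀ z, g.eval z = 0 ↔ z ∈ D.support := by
    intro z
    rw [Finsupp.mem_support_iff, ← h.order z, ← Nat.pos_iff_ne_zero, rootMultiplicity_pos h.ne_zero,
      IsRoot.def]
  obtain ⟨p1, hp1⟩ := hD
  have hroot : ∃ p, g.eval p = 0 := ⟨p1, (hroots p1).mpr hp1⟩
  have hsub : ∀ T : Finset ℂ, (∀ p ∈ D.support,
      Bornology.IsBounded (connectedComponentIn (realLocus f g) p) → p ∈ T) →
      (boundedComponents f g).encard ≤ T.card := by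
    intro T hT
    calc (boundedComponents f g).encard
        ≤ ((fun p => connectedComponentIn (realLocus f g) p) '' (T : Set ℂ)).encard := by
          apply Set.encard_le_encard
          rintro K ⟨z, hz, rfl, hb⟩
          obtain ⟨p, hp, hpg⟩ := exists_pole h.coprime h.ne_zero hroot hz hb
          have heq := connectedComponentIn_eq hp
          refine ⟨p, hT p ((hroots p).mp hpg) (by rw [← heq]; exact hb), heq.symm⟩
      _ ≤ (T : Set ℂ).encard := Set.encard_image_le _ _
      _ = T.card := Set.encard_coe_eq_coe_finsetCard T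
  split_ifs with hm
  · have hdeg : f.natDegree ≤ g.natDegree := by
      have := h.order_infty
      omega
    obtain ⟨p, hp, hpb⟩ := exists_unbounded h.coprime h.ne_zero hroot hdeg
    have h1 := hsub (D.support.erase p) (by
      intro q hq hqb
      refine Finset.mem_erase.mpr ⟨?_, hq⟩
      rintro rfl
      exact hpb hqb)
    rwa [Finset.card_erase_of_mem ((hroots p).mp hp)] at h1
  · exact hsub D.support (fun p hp _ => hp)

end Main

/-- The maximal number `N(D)` of bounded components, over all rational functions with pole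
divisor `D + m [∞]`, is the number `s` of distinct finite poles if `∞` is a pole (`m ≠ 0`), and
`s - 1` if it is not. -/
theorem result (D : ℂ →₀ ℕ) (hD : D.support.Nonempty) (m : ℕ) :
    IsGreatest {b : ℕ∞ | ∃ f g : ℂ[X], HasPoleDivisor f g D m ∧
        b = (boundedComponents f g).encard}
      ((if m = 0 then D.support.card - 1 else D.support.card : ℕ) : ℕ∞) := by
  constructor
  · by_cases hm : m = 0
    · subst hm
      obtain ⟨f, g, h, hcard⟩ := lower_finite D hD
      refine ⟨f, g, h, le_antisymm ?_ (upper hD h)⟩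
      simpa using hcard
    · obtain ⟨f, g, h, hcard⟩ := lower_infty D hm
      refine ⟨f, g, h, le_antisymm ?_ (upper hD h)⟩
      rw [if_neg hm]
      exact hcard
  · rintro b ⟨f, g, h, rfl⟩
    exact upper hD h

end Pool.Agent.Results.MP_bd2914_ag.MaxBounded
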